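import Pool.Agent.Lib.MP_83d6ff_an.Main

/-!
Radial solutions of the singular Q-curvature equation with arbitrary total curvature, in every
dimension `n ≥ 5`.
-/

namespace Pool.Agent.Results.MP_83d6ff_an.AllCurvatures

open MeasureTheory Pool.Agent.QCurv

/-- For every integer `n ≥ 5`, every `α > -1` and every `Λ > 0` there is a radially symmetric
continuous function `u` on `ℝⁿ` which is a weak solution of
`(-Δ) ^ (n / 2) u = |x| ^ (n α) exp (n u)` with total curvature
`∫ exp (n u) |x| ^ (n α) = Λ`. -/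
theorem result :
    ∀ n : ℕ, 5 ≤ n → ∀ α : ℝ, -1 < α → ∀ Λ : ℝ, 0 < Λ →
      ∃ u : EuclideanSpace ℝ (Fin n) → ℝ,
        Continuous u ∧ (∀ x y, ‖x‖ = ‖y‖ → u x = u y) ∧ IsSolution n α u ∧
          ∫ x, Real.exp (n * u x) * ‖x‖ ^ (n * α) = Λ := by
  intro n hn α hα Λ hΛ
  exact main n hn α hα Λ hΛ

end Pool.Agent.Results.MP_83d6ff_an.AllCurvatures
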